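import Pool.Agent.EQC.Stmts

/-!
# Squad EQC, row DUM: dummy pairs
-/

open SimpleGraph Finset
open Pool.Agent.Helper51_Equitable (edges nbrs vertexSum nb IsEquitableProper Nice)

namespace Pool.Agent.EQC.H69

section

variable {V : Type} [Fintype V] (G : SimpleGraph V) (D : ℕ)

open Classical in
/-- the edges at the low neighbours of the low vertex `u` -/
noncomputable def Tn (u : V) : Finset (Sym2 V) :=
  if Hi G D u then ∅ else (nbrs G u).biUnion fun z =>
    if Hi G D z then ∅ else (nbrs G z).image fun w => s(z, w)

theorem Tn_card (u : V) : (Tn G D u).card ≤ D * D := by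
  classical
  unfold Tn
  by_cases hu : Hi G D u
  · rw [if_pos hu]
    simp
  · rw [if_neg hu]
    have h1 : (nbrs G u).card ≤ D := by
      have : ¬ D ≤ dg G u := hu
      have h2 : dg G u = (nbrs G u).card := rfl
      omega
    refine (card_biUnion_le_card_mul _ _ D ?_).trans (Nat.mul_le_mul_right D h1)
    intro z _
    by_cases hz : Hi G D z
    · rw [if_pos hz]
      simp
    · rw [if_neg hz]
      refine card_image_le.trans ?_
      have : ¬ D ≤ dg G z := hz
      have h2 : dg G z = (nbrs G z).card := rfl
      omega

theorem mem_Tn {u z : V} {e : Sym2 V} (he : e ∈ edges G) (hu : ¬ Hi G D u) (hz : ¬ Hi G D z)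
    (hze : z ∈ e) (huz : G.Adj u z) : e ∈ Tn G D u := by
  classical
  unfold Tn
  rw [if_neg hu, mem_biUnion]
  refine ⟨z, Helper51_Equitable.mem_nbrs.2 huz, ?_⟩
  rw [if_neg hz, mem_image]
  obtain ⟨w, rfl⟩ := Sym2.mem_iff_exists.1 hze
  refine ⟨w, ?_, rfl⟩
  rw [Helper51_Equitable.mem_nbrs]
  exact (G.mem_edgeSet).1 (Helper51_Equitable.mem_edges.1 he)

end

/-- **DUM** -/
theorem dum : DumStmt := by
  classical
  intro V _ G D n R hR
  induction n with
  | zero =>
    intro _
    exact ⟨fun j => j.elim0, fun j => j.elim0, fun j => j.elim0, fun j => j.elim0,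
      fun j => j.elim0, fun j => j.elim0, fun j => j.elim0⟩
  | succ n ih =>
    intro hn
    obtain ⟨f, g, h1, h2, h3, h4, h5⟩ := ih (by omega)
    set U : Finset (Sym2 V) := univ.image f ∪ univ.image g with hU
    have hUc : U.card ≤ 2 * n := by
      rw [hU]
      refine (card_union_le _ _).trans ?_
      have e1 : (univ.image f).card ≤ n := by
        refine card_image_le.trans ?_
        simp
      have e2 : (univ.image g).card ≤ n := by
        refine card_image_le.trans ?_
        simp
      omega
    have hfU : ∀ j, f j ∈ U := fun j => mem_union_left _ (mem_image_of_mem _ (mem_univ _))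
    have hgU : ∀ j, g j ∈ U := fun j => mem_union_right _ (mem_image_of_mem _ (mem_univ _))
    -- the first edge
    obtain ⟨e, heR, heU⟩ : ∃ e ∈ R, e ∉ U := by
      by_contra hcon
      have h6 : R ⊆ U := fun e he => by
        by_contra h7
        exact hcon ⟨e, he, h7⟩
      have := card_le_card h6
      omega
    -- the second edge
    obtain ⟨a, b, hab⟩ : ∃ a b : V, e = s(a, b) := by
      induction e using Sym2.ind with
      | _ a b => exact ⟨a, b, rfl⟩
    obtain ⟨e', heR', heU'⟩ : ∃ e' ∈ R, e' ∉ insert e (U ∪ (Tn G D a ∪ Tn G D b)) := by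
      by_contra hcon
      have h6 : R ⊆ insert e (U ∪ (Tn G D a ∪ Tn G D b)) := fun x hx => by
        by_contra h7
        exact hcon ⟨x, hx, h7⟩
      have h7 := card_le_card h6
      have h8 := card_insert_le e (U ∪ (Tn G D a ∪ Tn G D b))
      have h9 := card_union_le U (Tn G D a ∪ Tn G D b)
      have h10 := card_union_le (Tn G D a) (Tn G D b)
      have h11 := Tn_card G D a
      have h12 := Tn_card G D b
      have h13 : D ^ 2 = D * D := sq D
      omega
    simp only [mem_insert, mem_union, not_or] at heU'
    obtain ⟨k1, k2, k3, k4⟩ := heU'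
    refine ⟨Fin.cons e f, Fin.cons e' g, ?_, ?_, ?_, ?_, ?_⟩
    · intro j
      refine Fin.cases ?_ (fun j => ?_) j
      · exact ⟨heR, heR'⟩
      · exact h1 j
    · intro i j
      refine Fin.cases ?_ (fun i => ?_) i <;> refine Fin.cases ?_ (fun j => ?_) j
      · intro _; rfl
      · intro h
        rw [Fin.cons_zero, Fin.cons_succ] at h
        exact absurd (h ▸ hfU j) heU
      · intro h
        rw [Fin.cons_zero, Fin.cons_succ] at h
        exact absurd (h ▸ hfU i) heU
      · intro h
        rw [Fin.cons_succ, Fin.cons_succ] at h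
        rw [h2 i j h]
    · intro i j
      refine Fin.cases ?_ (fun i => ?_) i <;> refine Fin.cases ?_ (fun j => ?_) j
      · intro _; rfl
      · intro h
        rw [Fin.cons_zero, Fin.cons_succ] at h
        exact absurd (h ▸ hgU j) k2
      · intro h
        rw [Fin.cons_zero, Fin.cons_succ] at h
        exact absurd (h ▸ hgU i) k2
      · intro h
        rw [Fin.cons_succ, Fin.cons_succ] at h
        rw [h3 i j h]
    · intro i j
      refine Fin.cases ?_ (fun i => ?_) i <;> refine Fin.cases ?_ (fun j => ?_) j
      · intro h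
        rw [Fin.cons_zero, Fin.cons_zero] at h
        exact k1 h.symm
      · intro h
        rw [Fin.cons_zero, Fin.cons_succ] at h
        exact heU (h ▸ hgU j)
      · intro h
        rw [Fin.cons_zero, Fin.cons_succ] at h
        exact k2 (h ▸ hfU i)
      · intro h
        rw [Fin.cons_succ, Fin.cons_succ] at h
        exact h4 i j h
    · intro j
      refine Fin.cases ?_ (fun j => ?_) j
      · rw [Fin.cons_zero, Fin.cons_zero]
        intro u hu z hz hul hzl hadj
        rw [hab] at hu
        have h6 := mem_Tn G D (hR e' heR') hul hzl hz hadj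
        rcases Sym2.mem_iff.1 hu with rfl | rfl
        · exact k3 h6
        · exact k4 h6
      · rw [Fin.cons_succ, Fin.cons_succ]
        exact h5 j

end Pool.Agent.EQC.H69
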