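import Pool.Agent.EQC.Stmts

/-!
# Squad EQC, row SEL: choice of the hubs used by the active vertices
-/

open SimpleGraph Finset
open Pool.Agent.Helper51_Equitable (edges nbrs vertexSum nb IsEquitableProper Nice)

namespace Pool.Agent.EQC.H69

section cnts

variable {α : Type} [Fintype α]

theorem cnt_mono {p q : α → Prop} (h : ∀ x, p x → q x) : cnt p ≤ cnt q := by
  classical
  unfold cnt
  refine card_le_card fun x hx => ?_
  rw [mem_filter] at hx ⊢
  exact ⟨hx.1, h x hx.2⟩

theorem cnt_congr {p q : α → Prop} (h : ∀ x, p x ↔ q x) : cnt p = cnt q :=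
  le_antisymm (cnt_mono fun x => (h x).1) (cnt_mono fun x => (h x).2)

theorem cnt_or (p q : α → Prop) : cnt (fun x => p x ∨ q x) ≤ cnt p + cnt q := by
  classical
  unfold cnt
  refine le_trans (card_le_card ?_) (card_union_le _ _)
  intro x hx
  simp only [mem_union, mem_filter, mem_univ, true_and] at hx ⊢
  exact hx

theorem cnt_eq_one (a : α) : cnt (fun x => x = a) = 1 := by
  classical
  unfold cnt
  refine card_eq_one.2 ⟨a, ?_⟩
  ext x
  rw [mem_filter, mem_singleton]
  exact ⟨fun h => h.2, fun h => ⟨mem_univ _, h⟩⟩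

theorem cnt_card {p : α → Prop} (s : Finset α) (h : ∀ x, x ∈ s ↔ p x) : s.card = cnt p := by
  classical
  unfold cnt
  congr 1
  ext x
  rw [h, mem_filter]
  exact ⟨fun h => ⟨mem_univ _, h⟩, fun h => h.2⟩

end cnts

/-- **SEL** -/
theorem sel (hC : CntStmt) : SelStmt := by
  classical
  intro V _ G c D d hB
  obtain ⟨hc, hD⟩ := hB
  have hD0 : 56022006 ≤ D := by omega
  -- hubs
  set A : V → Finset V := fun v => univ.filter fun x => Hi G D x ∧ x ≠ d.r0 ∧ v ∈ d.F x with hA
  set Bs : V → Finset V := fun v => univ.filter fun x => (Hi G D x ∧ x ≠ d.r0) ∧ d.tau x = v with hBs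
  set Bc : V → Finset V := fun v => (Bs v).filter fun x => Comp G D x v with hBc
  set T1 : V → Prop := fun v => Act d v ∧ ¬ LT G D d.Out v ∧ dg G v ≤ 6 * (Bs v).card + 6 with hT1
  set T2 : V → Prop := fun v => Act d v ∧ c ≤ qn G D v ∧ qn G D v ≤ 4 * (Bc v).card + 4 with hT2
  set k : ℕ := 4 * c + 11 with hk
  set Bu : V → ℕ := fun v => 7 * (qn G D v / c) with hBu
  set Wd : V → ℕ := fun v => (if T1 v then k else 0) + (if T2 v then Bu v else 0) with hWd
  set Nd : V → ℕ := fun v => if Act d v then (if LT G D d.Out v ∨ T1 v then 0 else k) +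
    (if T2 v then 0 else Bu v) else 0 with hNd
  have hBcB : ∀ v, (Bc v).card ≤ (Bs v).card := fun v => card_le_card (filter_subset _ _)
  -- arithmetic of the bulk
  have hBu1 : ∀ v, 1000 * Bu v ≤ qn G D v := by
    intro v
    have h1 : c * (qn G D v / c) ≤ qn G D v := Nat.mul_div_le _ _
    have h2 : 7000 * (qn G D v / c) ≤ c * (qn G D v / c) := Nat.mul_le_mul_right _ hc
    change 1000 * (7 * (qn G D v / c)) ≤ qn G D v
    omega
  have hqd : ∀ v, qn G D v ≤ dg G v := by
    intro v
    unfold qn dg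
    rw [cnt_card (p := fun u => G.Adj v u) (nbrs G v) (fun x => Helper51_Equitable.mem_nbrs)]
    exact cnt_mono fun x hx => hx.1
  have hBu0 : ∀ v, qn G D v < c → Bu v = 0 := by
    intro v hv
    change 7 * (qn G D v / c) = 0
    rw [Nat.div_eq_of_lt hv]
  -- counts at a high vertex
  have cts : ∀ v, Hi G D v →
      ∃ l p : ℕ, l = cnt (fun y => ¬ Hi G D y ∧ d.Out y v) ∧ p ≤ 2 * (A v).card + 1 ∧
        dg G v ≤ 2 * (l + (Bs v).card + p + 1) + 4 ∧ qn G D v ≤ 2 * ((Bc v).card + p + 1) + 2 := by
    intro v hv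
    refine ⟨_, cnt (fun x => Hi G D x ∧ x ≠ d.r0 ∧ Hi G D v ∧ d.Out x v ∧ v ≠ d.tau x), rfl,
      ?_, ?_, ?_⟩
    · have h1 := d.F_cnt v
      rw [cnt_card (p := fun x => Hi G D x ∧ x ≠ d.r0 ∧ v ∈ d.F x) (A v)
        (fun x => by rw [hA]; simp)]
      exact h1
    · refine (d.ori.indeg v hv).trans ?_
      have h1 : cnt (fun x => d.Out x v) ≤ cnt (fun y => ¬ Hi G D y ∧ d.Out y v) +
          (Bs v).card + cnt (fun x => Hi G D x ∧ x ≠ d.r0 ∧ Hi G D v ∧ d.Out x v ∧ v ≠ d.tau x) +
          1 := by
        have h2 : cnt (fun x => d.Out x v) ≤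
            cnt (fun x => (((¬ Hi G D x ∧ d.Out x v) ∨ ((Hi G D x ∧ x ≠ d.r0) ∧ d.tau x = v)) ∨
              (Hi G D x ∧ x ≠ d.r0 ∧ Hi G D v ∧ d.Out x v ∧ v ≠ d.tau x)) ∨ x = d.r0) := by
          refine cnt_mono fun x hx => ?_
          by_cases h1 : Hi G D x
          · by_cases h2 : x = d.r0
            · exact Or.inr h2
            · by_cases h3 : d.tau x = v
              · exact Or.inl (Or.inl (Or.inr ⟨⟨h1, h2⟩, h3⟩))
              · exact Or.inl (Or.inr ⟨h1, h2, hv, hx, fun h => h3 h.symm⟩)
          · exact Or.inl (Or.inl (Or.inl ⟨h1, hx⟩))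
        refine h2.trans ((cnt_or _ _).trans ?_)
        rw [cnt_eq_one]
        have h3 := cnt_or (fun x => (¬ Hi G D x ∧ d.Out x v) ∨
          ((Hi G D x ∧ x ≠ d.r0) ∧ d.tau x = v))
          (fun x => Hi G D x ∧ x ≠ d.r0 ∧ Hi G D v ∧ d.Out x v ∧ v ≠ d.tau x)
        have h4 := cnt_or (fun x => ¬ Hi G D x ∧ d.Out x v)
          (fun x => (Hi G D x ∧ x ≠ d.r0) ∧ d.tau x = v)
        have h5 : (Bs v).card = cnt (fun x => (Hi G D x ∧ x ≠ d.r0) ∧ d.tau x = v) :=
          cnt_card _ (fun x => by rw [hBs]; simp)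
        omega
      omega
    · refine (d.ori.incmp v hv).trans ?_
      have h2 : cnt (fun x => Comp G D x v ∧ d.Out x v) ≤
          cnt (fun x => ((((Hi G D x ∧ x ≠ d.r0) ∧ d.tau x = v) ∧ Comp G D x v) ∨
            (Hi G D x ∧ x ≠ d.r0 ∧ Hi G D v ∧ d.Out x v ∧ v ≠ d.tau x)) ∨ x = d.r0) := by
        refine cnt_mono fun x hx => ?_
        by_cases h2 : x = d.r0
        · exact Or.inr h2
        · by_cases h3 : d.tau x = v
          · exact Or.inl (Or.inl ⟨⟨⟨hx.1.2.1, h2⟩, h3⟩, hx.1⟩)
          · exact Or.inl (Or.inr ⟨hx.1.2.1, h2, hv, hx.2, fun h => h3 h.symm⟩)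
      have h3 := cnt_or (fun x => (((Hi G D x ∧ x ≠ d.r0) ∧ d.tau x = v) ∧ Comp G D x v) ∨
            (Hi G D x ∧ x ≠ d.r0 ∧ Hi G D v ∧ d.Out x v ∧ v ≠ d.tau x)) (fun x => x = d.r0)
      have h4 := cnt_or (fun x => ((Hi G D x ∧ x ≠ d.r0) ∧ d.tau x = v) ∧ Comp G D x v)
            (fun x => Hi G D x ∧ x ≠ d.r0 ∧ Hi G D v ∧ d.Out x v ∧ v ≠ d.tau x)
      rw [cnt_eq_one] at h3
      have h5 : (Bc v).card = cnt (fun x => ((Hi G D x ∧ x ≠ d.r0) ∧ d.tau x = v) ∧
          Comp G D x v) :=
        cnt_card _ (fun x => by rw [hBc, hBs]; simp)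
      omega
  -- the demands can be satisfied
  have hWle : ∀ v, Wd v ≤ (Bs v).card := by
    intro v
    change (if T1 v then k else 0) + (if T2 v then Bu v else 0) ≤ (Bs v).card
    have b1 := hBu1 v
    have b2 := hqd v
    have b3 := hBcB v
    by_cases h1 : T1 v
    · rw [if_pos h1]
      have h2 : D ≤ dg G v := h1.1.1
      have h3 := h1.2.2
      have h4 : (if T2 v then Bu v else 0) ≤ Bu v := by
        split
        · exact le_rfl
        · exact Nat.zero_le _
      omega
    · rw [if_neg h1]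
      by_cases h2 : T2 v
      · rw [if_pos h2]
        have h3 := h2.2.1
        have h4 := h2.2.2
        omega
      · rw [if_neg h2]
        omega
  have hNle : ∀ v, Nd v ≤ (A v).card := by
    intro v
    change (if Act d v then (if LT G D d.Out v ∨ T1 v then 0 else k) +
      (if T2 v then 0 else Bu v) else 0) ≤ (A v).card
    by_cases ha : Act d v
    · rw [if_pos ha]
      obtain ⟨l, p, hl, hp, e1, e2⟩ := cts v ha.1
      have b1 := hBu1 v
      have b2 := hqd v
      have b4 : D ≤ dg G v := ha.1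
      have b5 := hBcB v
      -- bulk
      have hbulk : ¬ T2 v → Bu v = 0 ∨ (c ≤ qn G D v ∧ qn G D v ≤ 4 * p + 4) := by
        intro h2
        by_cases h3 : c ≤ qn G D v
        · right
          refine ⟨h3, ?_⟩
          have h4 : ¬ qn G D v ≤ 4 * (Bc v).card + 4 := fun h => h2 ⟨ha, h3, h⟩
          omega
        · left
          exact hBu0 v (by omega)
      by_cases h1 : LT G D d.Out v ∨ T1 v
      · rw [if_pos h1]
        by_cases h2 : T2 v
        · rw [if_pos h2]
          omega
        · rw [if_neg h2]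
          rcases hbulk h2 with h3 | ⟨h3, h4⟩
          · omega
          · omega
      · rw [if_neg h1]
        push Not at h1
        have h5 : ¬ dg G v ≤ 6 * l + 6 := fun h => h1.1 ⟨ha.1, hl ▸ h⟩
        have h6 : ¬ dg G v ≤ 6 * (Bs v).card + 6 := fun h => h1.2 ⟨ha, h1.1, h⟩
        have h7 : (if T2 v then 0 else Bu v) ≤ Bu v := by
          split
          · exact Nat.zero_le _
          · exact le_rfl
        omega
    · rw [if_neg ha]
      exact Nat.zero_le _
  choose WF hW1 hW2 using fun v => exists_subset_card_eq (hWle v)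
  choose NF hN1 hN2 using fun v => exists_subset_card_eq (hNle v)
  -- few
  have hfew : 16 * (∑ v, (WF v).card) ≤ 2 * d.M.card := by
    set U : Finset V := d.M.biUnion fun e => univ.filter fun v => v ∈ e with hU
    set X : Finset V := univ.filter fun x => (Hi G D x ∧ x ≠ d.r0) ∧ Hi G D (d.tau x) with hX
    have hUm : ∀ v, v ∈ U ↔ ∃ e ∈ d.M, v ∈ e := by
      intro v
      rw [hU, mem_biUnion]
      simp
    have hXm : ∀ x, x ∈ X ↔ (Hi G D x ∧ x ≠ d.r0) ∧ Hi G D (d.tau x) := by
      intro x
      rw [hX]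
      simp
    have hUc : U.card ≤ d.M.card * 2 := by
      rw [hU]
      refine card_biUnion_le_card_mul _ _ 2 fun e _ => ?_
      induction e using Sym2.ind with
      | _ a b =>
        have : (univ.filter fun v => v ∈ s(a, b)) ⊆ ({a, b} : Finset V) := by
          intro v hv
          rw [mem_filter, Sym2.mem_iff] at hv
          simpa using hv.2
        exact (card_le_card this).trans card_le_two
    have hNm : ∀ x v, v ∈ (univ.filter fun v => d.Out x v) ↔ d.Out x v := by
      intro x v
      simp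
    have h1 := hC V c D (fun v => dg G v) (fun v => qn G D v) d.r0 U X
      (univ.filter T1) (univ.filter T2) d.tau (fun x => univ.filter fun v => d.Out x v)
      (fun x z => Comp G D x z) ⟨hc, hD⟩ ?_ ?_ ?_ ?_ ?_ ?_
    · have h2 : ∑ v, (WF v).card = k * (univ.filter T1).card +
          ∑ z ∈ univ.filter T2, 7 * (qn G D z / c) := by
        have h3 : ∀ v, (WF v).card = (if T1 v then k else 0) + (if T2 v then Bu v else 0) :=
          fun v => hW2 v
        rw [sum_congr rfl fun v _ => h3 v, sum_add_distrib, ← sum_filter, ← sum_filter, sum_const,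
          smul_eq_mul, mul_comm]
      rw [h2]
      refine h1.trans ?_
      omega
    · intro x hx
      rw [hXm] at hx
      obtain ⟨⟨x1, x2⟩, x3⟩ := hx
      have h2 : (univ.filter fun v => d.Out x v).card = cnt (fun v => d.Out x v) :=
        cnt_card _ (hNm x)
      have h3 : dg G x ≤ 2 * (univ.filter fun v => d.Out x v).card + 4 := by
        rw [h2]
        exact d.ori.outdeg x x1
      have x1' : D ≤ dg G x := x1
      have h4 : d.tau x ≠ d.r0 := by
        intro h5
        have h6 : (univ.filter fun v => d.Out x v) ⊆ ({d.r0} : Finset V) := by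
          intro v hv
          rw [hNm] at hv
          have h7 := (d.tau_top x x1 x2 x3 v hv).2
          rw [mem_singleton]
          by_contra h8
          have h9 := d.rank.first v h8
          rw [h5] at h7
          omega
        have h7 := card_le_card h6
        rw [card_singleton] at h7
        omega
      refine ⟨x1, x3, h3, ?_, ?_⟩
      · intro v hv hvr
        rw [hNm] at hv
        have h7 := (d.tau_top x x1 x2 x3 v hv).2
        by_contra h8
        have h9 := d.rank.mono (d.tau x) v h4 hvr (not_le.1 h8)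
        omega
      · intro hxU v hv
        rw [hNm] at hv
        rw [hUm] at hxU ⊢
        have h7 := (d.tau_top x x1 x2 x3 v hv).1
        obtain ⟨e, he, he'⟩ := d.mm.max x v x1 h7 (d.ori.adj x v hv)
        rcases he' with h8 | h8
        · exact absurd ⟨e, he, h8⟩ hxU
        · exact ⟨e, he, h8⟩
    · intro v
      change cnt (fun x => x ∈ X ∧ v ∈ univ.filter fun v => d.Out x v) ≤ (nbrs G v).card
      rw [cnt_card (p := fun u => G.Adj v u) (nbrs G v) (fun x => Helper51_Equitable.mem_nbrs)]
      refine cnt_mono fun x hx => ?_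
      have := hx.2
      rw [hNm] at this
      exact (d.ori.adj x v this).symm
    · intro v hv
      rw [hUm] at hv
      obtain ⟨e, he, hve⟩ := hv
      exact (d.mm.edge e he).2 v hve
    · intro z hz
      have hz' : T1 z := by simpa using hz
      refine ⟨hz'.1.1, ?_⟩
      have h2 : (Bs z).card = cnt (fun x => x ∈ X ∧ d.tau x = z) := by
        refine cnt_card _ fun x => ?_
        rw [hBs, hXm]
        simp only [mem_filter, mem_univ, true_and]
        constructor
        · rintro ⟨h3, h4⟩
          exact ⟨⟨h3, h4 ▸ hz'.1.1⟩, h4⟩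
        · rintro ⟨h3, h4⟩
          exact ⟨h3.1, h4⟩
      rw [← h2]
      exact hz'.2.2
    · intro z hz
      have hz' : T2 z := by simpa using hz
      refine ⟨hz'.1.1, hz'.2.1, ?_⟩
      have h2 : (Bc z).card = cnt (fun x => x ∈ X ∧ d.tau x = z ∧ Comp G D x z) := by
        refine cnt_card _ fun x => ?_
        rw [hBc, hBs, hXm]
        simp only [mem_filter, mem_univ, true_and]
        constructor
        · rintro ⟨⟨h3, h4⟩, h5⟩
          exact ⟨⟨h3, h4 ▸ hz'.1.1⟩, h4, h5⟩
        · rintro ⟨h3, h4, h5⟩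
          exact ⟨⟨h3.1, h4⟩, h5⟩
      rw [← h2]
      exact hz'.2.2
    · intro x z h
      exact h.2.2.2.2
  refine ⟨{
    NF := NF
    WF := WF
    NF_sub := ?_
    WF_sub := ?_
    act := ?_
    card_lt := ?_
    card_not := ?_
    few := ?_ }⟩
  · intro v x hx
    have h1 := hN1 v hx
    rw [hA] at h1
    simpa using h1
  · intro v x hx
    have h1 := hW1 v hx
    rw [hBs] at h1
    have h2 : (Hi G D x ∧ x ≠ d.r0) ∧ d.tau x = v := by simpa using h1
    exact ⟨h2.1.1, h2.1.2, h2.2⟩
  · intro v hv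
    constructor
    · rw [← card_eq_zero, hN2 v]
      exact if_neg hv
    · rw [← card_eq_zero, hW2 v]
      change (if T1 v then k else 0) + (if T2 v then Bu v else 0) = 0
      rw [if_neg (fun h => hv h.1), if_neg (fun h => hv h.1)]
  · intro v hv hL
    rw [hN2 v, hW2 v]
    change (if Act d v then (if LT G D d.Out v ∨ T1 v then 0 else k) +
      (if T2 v then 0 else Bu v) else 0) + ((if T1 v then k else 0) + (if T2 v then Bu v else 0)) =
      Bu v
    rw [if_pos hv, if_pos (Or.inl hL), if_neg (fun h : T1 v => h.2.1 hL)]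
    by_cases h2 : T2 v
    · rw [if_pos h2, if_pos h2]
      omega
    · rw [if_neg h2, if_neg h2]
      omega
  · intro v hv hL
    rw [hN2 v, hW2 v]
    change (if Act d v then (if LT G D d.Out v ∨ T1 v then 0 else k) +
      (if T2 v then 0 else Bu v) else 0) + ((if T1 v then k else 0) + (if T2 v then Bu v else 0)) =
      k + Bu v
    rw [if_pos hv]
    by_cases h1 : T1 v
    · rw [if_pos (Or.inr h1), if_pos h1]
      by_cases h2 : T2 v
      · rw [if_pos h2, if_pos h2]
        omega
      · rw [if_neg h2, if_neg h2]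
        omega
    · rw [if_neg (fun h : LT G D d.Out v ∨ T1 v => h.elim hL h1), if_neg h1]
      by_cases h2 : T2 v
      · rw [if_pos h2, if_pos h2]
        omega
      · rw [if_neg h2, if_neg h2]
        omega
  · omega

end Pool.Agent.EQC.H69
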